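import Pool.Agent.Y723.Z8.Stm
import Pool.Agent.W29.RT.LOW4

/-!
# Project Z8, part LOW: there are many curves with a subgroup `Z/2 x Z/8`

The curves `y² = x (x + u⁴) (x + v⁴)` with `u = 2 X Y`, `v = X² - Y²`, `w = X² + Y²` have the point of
order eight with `x = u v (u + w) (v + w)`. The pairs `X = q + 6 r`, `Y = 2 r` with `q` odd and `q`, `r`
coprime give coprime `u < v`.
-/

set_option autoImplicit false

namespace Pool.Agent.Y73.Z8

open Finset Pool.Agent.W307.RT Pool.Agent.W29.RT WeierstrassCurve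

/-- doubling: the half of the point with `x - e_i` the squares of `r`, `s`, `t` -/
lemma dbl {A B : ℤ} {r s t c x y x2 y2 : ℚ} (h3 : 3 * c = r ^ 2 + s ^ 2 + t ^ 2)
    (hA : (A : ℚ) = (c - r ^ 2) * (c - s ^ 2) + (c - r ^ 2) * (c - t ^ 2) +
      (c - s ^ 2) * (c - t ^ 2))
    (hx : x = c + r * s + r * t + s * t) (hy : y = (r + s) * (r + t) * (s + t)) (hy0 : y ≠ 0)
    (hx2 : x2 = c) (hy2 : y2 = r * s * t) (hP : (Sh A B).toAffine.Nonsingular x y)
    (hP2 : (Sh A B).toAffine.Nonsingular x2 y2) :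
    Affine.Point.some _ _ hP + Affine.Point.some _ _ hP = Affine.Point.some _ _ hP2 := by
  have hc : c = (r ^ 2 + s ^ 2 + t ^ 2) / 3 := by linarith
  have hne : y ≠ (Sh A B).toAffine.negY x y := by
    rw [neg_y]
    intro h
    apply hy0
    linarith
  have hsl : (Sh A B).toAffine.slope x x y y = r + s + t := by
    rw [Affine.slope_of_Y_ne rfl hne, neg_y]
    simp only [Sh]
    rw [hA, div_eq_iff (by intro h; apply hy0; linarith), hx, hy, hc]
    ring
  rw [Affine.Point.add_self_of_Y_ne hne, Affine.Point.some.injEq, hsl]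
  constructor
  · simp only [Affine.addX, Sh]
    rw [hx2, hx, hc]
    ring
  · simp only [Affine.addY, Affine.negAddY, Affine.negY, Affine.addX, Sh]
    rw [hy2, hx, hy, hc]
    ring

lemma eqn {A B : ℤ} {r s t c x y : ℚ} (h3 : 3 * c = r ^ 2 + s ^ 2 + t ^ 2)
    (hA : (A : ℚ) = (c - r ^ 2) * (c - s ^ 2) + (c - r ^ 2) * (c - t ^ 2) +
      (c - s ^ 2) * (c - t ^ 2))
    (hB : (B : ℚ) = -((c - r ^ 2) * (c - s ^ 2) * (c - t ^ 2)))
    (hx : x = c + r * s + r * t + s * t) (hy : y = (r + s) * (r + t) * (s + t)) :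
    y ^ 2 = x ^ 3 + A * x + B := by
  have hc : c = (r ^ 2 + s ^ 2 + t ^ 2) / 3 := by linarith
  rw [hA, hB, hx, hy, hc]
  ring

lemma hasT8 {A B : ℤ} {X Y a b : ℚ} (ha' : a = (X ^ 2 - Y ^ 2) ^ 2) (hb' : b = (2 * X * Y) ^ 2)
    (hA : (A : ℚ) = -27 * (a ^ 4 - a ^ 2 * b ^ 2 + b ^ 4))
    (hB : (B : ℚ) = 27 * ((a ^ 2 + b ^ 2) * (2 * a ^ 2 - b ^ 2) * (a ^ 2 - 2 * b ^ 2)))
    (hY0 : 0 < Y) (hX : Y < X) (hab' : a - b ≠ 0) : HasT 8 (Sh A B) := by
  have hX0 : 0 < X := hY0.trans hX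
  obtain ⟨u, hu⟩ : ∃ u : ℚ, u = 2 * X * Y := ⟨_, rfl⟩
  obtain ⟨v, hv⟩ : ∃ v : ℚ, v = X ^ 2 - Y ^ 2 := ⟨_, rfl⟩
  obtain ⟨w, hw⟩ : ∃ w : ℚ, w = X ^ 2 + Y ^ 2 := ⟨_, rfl⟩
  have hu0 : 0 < u := by rw [hu]; positivity
  have hv0 : 0 < v := by rw [hv]; nlinarith
  have hw0 : 0 < w := by rw [hw]; positivity
  have hw2 : w ^ 2 = u ^ 2 + v ^ 2 := by rw [hu, hv, hw]; ring
  rw [← hv] at ha'
  rw [← hu] at hb'
  have ha : 0 < a := by rw [ha']; positivity
  have hb : 0 < b := by rw [hb']; positivity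
  have hab : a + b ≠ 0 := by positivity
  have hy : 27 * a * b * (a + b) ≠ 0 := by positivity
  have hP : (Sh A B).toAffine.Nonsingular (3 * (a ^ 2 + b ^ 2) + 9 * a * b)
      (27 * a * b * (a + b)) := by
    apply nons _ (Or.inl hy)
    rw [hA, hB]; ring
  have hR : (Sh A B).toAffine.Nonsingular (3 * (a ^ 2 + b ^ 2)) 0 := by
    apply nons _ (Or.inr _)
    · rw [hA, hB]; ring
    · rw [hA]
      have : 3 * (3 * (a ^ 2 + b ^ 2)) ^ 2 + -27 * (a ^ 4 - a ^ 2 * b ^ 2 + b ^ 4) =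
        81 * a ^ 2 * b ^ 2 := by ring
      rw [this]; positivity
  have hQ : (Sh A B).toAffine.Nonsingular (3 * b ^ 2 - 6 * a ^ 2) 0 := by
    apply nons _ (Or.inr _)
    · rw [hA, hB]; ring
    · rw [hA]
      have : 3 * (3 * b ^ 2 - 6 * a ^ 2) ^ 2 + -27 * (a ^ 4 - a ^ 2 * b ^ 2 + b ^ 4) =
        81 * a ^ 2 * ((a + b) * (a - b)) := by ring
      rw [this]; positivity
  -- the point of order eight
  obtain ⟨r, hr⟩ : ∃ r : ℚ, r = 3 * u * v := ⟨_, rfl⟩
  obtain ⟨s, hs⟩ : ∃ s : ℚ, s = 3 * u * w := ⟨_, rfl⟩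
  obtain ⟨t, ht⟩ : ∃ t : ℚ, t = 3 * v * w := ⟨_, rfl⟩
  obtain ⟨c, hc⟩ : ∃ c : ℚ, c = 3 * (a ^ 2 + b ^ 2) + 9 * a * b := ⟨_, rfl⟩
  have hr2 : r ^ 2 = 9 * a * b := by rw [hr, ha', hb']; ring
  have hs2 : s ^ 2 = 9 * b * (a + b) := by
    rw [hs, ha', hb']
    linear_combination 9 * u ^ 2 * hw2
  have ht2 : t ^ 2 = 9 * a * (a + b) := by
    rw [ht, ha', hb']
    linear_combination 9 * v ^ 2 * hw2
  have h3 : 3 * c = r ^ 2 + s ^ 2 + t ^ 2 := by
    rw [hr2, hs2, ht2, hc]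
    ring
  have hA' : (A : ℚ) = (c - r ^ 2) * (c - s ^ 2) + (c - r ^ 2) * (c - t ^ 2) +
      (c - s ^ 2) * (c - t ^ 2) := by
    rw [hr2, hs2, ht2, hc, hA]
    ring
  have hB' : (B : ℚ) = -((c - r ^ 2) * (c - s ^ 2) * (c - t ^ 2)) := by
    rw [hr2, hs2, ht2, hc, hB]
    ring
  have hrst : 27 * a * b * (a + b) = r * s * t := by
    rw [hr, hs, ht, ha', hb']
    linear_combination (-27) * u ^ 2 * v ^ 2 * hw2
  have hy8 : (r + s) * (r + t) * (s + t) ≠ 0 := by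
    have : 0 < r := by rw [hr]; positivity
    have : 0 < s := by rw [hs]; positivity
    have : 0 < t := by rw [ht]; positivity
    positivity
  have hS : (Sh A B).toAffine.Nonsingular (c + r * s + r * t + s * t)
      ((r + s) * (r + t) * (s + t)) :=
    nons (eqn h3 hA' hB' rfl rfl) (Or.inl hy8)
  set S : (Sh A B).toAffine.Point := .some _ _ hS with hSd
  set P : (Sh A B).toAffine.Point := .some _ _ hP with hPd
  set R : (Sh A B).toAffine.Point := .some _ _ hR with hRd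
  set Q : (Sh A B).toAffine.Point := .some _ _ hQ with hQd
  have hSS : S + S = P := dbl h3 hA' rfl rfl hy8 hc.symm hrst hS hP
  have hRR : R + R = 0 := by
    rw [hRd]
    apply Affine.Point.add_self_of_Y_eq
    rw [neg_y]; simp
  have hQQ : Q + Q = 0 := by
    rw [hQd]
    apply Affine.Point.add_self_of_Y_eq
    rw [neg_y]; simp
  have hPP : P + P = R := by
    have hne : 27 * a * b * (a + b) ≠ (Sh A B).toAffine.negY (3 * (a ^ 2 + b ^ 2) + 9 * a * b)
        (27 * a * b * (a + b)) := by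
      rw [neg_y]
      intro h
      apply hy
      linarith
    have hsl : (Sh A B).toAffine.slope (3 * (a ^ 2 + b ^ 2) + 9 * a * b)
        (3 * (a ^ 2 + b ^ 2) + 9 * a * b) (27 * a * b * (a + b)) (27 * a * b * (a + b)) =
        3 * (a + b) := by
      rw [Affine.slope_of_Y_ne rfl hne, neg_y]
      simp only [Sh]
      rw [hA, div_eq_iff (by intro h; apply hy; linarith)]
      ring
    rw [hPd, Affine.Point.add_self_of_Y_ne hne, hRd, Affine.Point.some.injEq, hsl]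
    constructor
    · simp only [Affine.addX, Sh]; ring
    · simp only [Affine.addY, Affine.negAddY, Affine.negY, Affine.addX, Sh]; ring
  have hR0 : R ≠ 0 := Affine.Point.some_ne_zero hR
  have hQ0 : Q ≠ 0 := Affine.Point.some_ne_zero hQ
  have hRQ : R ≠ Q := by
    rw [hRd, hQd, Ne, Affine.Point.some.injEq]
    rintro ⟨h, -⟩
    have : 9 * a ^ 2 = 0 := by linarith
    have h3 : a ^ 2 = 0 := by linarith
    exact ha.ne' (pow_eq_zero_iff (by norm_num) |>.1 h3)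
  have h2S : 2 • S = P := by rw [two_nsmul, hSS]
  have h4S : 4 • S = R := by
    have : (4 : ℕ) • S = 2 • (2 • S) := by rw [← mul_nsmul]
    rw [this, h2S, two_nsmul, hPP]
  have h8S : 8 • S = 0 := by
    have : (8 : ℕ) • S = 2 • (4 • S) := by rw [← mul_nsmul]
    rw [this, h4S, two_nsmul, hRR]
  have hoS : addOrderOf S = 8 := by
    have := addOrderOf_eq_prime_pow (x := S) (p := 2) (n := 2) (by simp [h4S, hR0])
      h8S
    simpa using this
  have hoQ : addOrderOf Q = 2 := by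
    apply addOrderOf_eq_prime
    · rw [two_nsmul, hQQ]
    · exact hQ0
  refine ⟨S, Q, hoS, hoQ, ?_⟩
  intro hmem
  obtain ⟨k, hk⟩ := AddSubgroup.mem_zmultiples_iff.1 hmem
  have h4 : ((addOrderOf S : ℕ) : ℤ) ∣ 2 * k := by
    rw [addOrderOf_dvd_iff_zsmul_eq_zero, mul_zsmul, hk, two_zsmul, hQQ]
  rw [hoS] at h4
  obtain ⟨j, hj⟩ : ∃ j, k = 4 * j := by
    obtain ⟨l, hl⟩ := h4
    exact ⟨l, by push_cast at hl; linarith⟩
  have h4S' : (4 : ℤ) • S = R := by
    have := h4S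
    rw [← natCast_zsmul] at this
    exact_mod_cast this
  have hkj : k • S = j • R := by
    rw [hj, mul_comm, mul_zsmul, h4S']
  rcases Int.even_or_odd j with ⟨i, hi⟩ | ⟨i, hi⟩
  · apply hQ0
    rw [← hk, hkj, hi, ← two_mul, mul_comm, mul_zsmul, two_zsmul, hRR, zsmul_zero]
  · apply hRQ
    rw [← hk, hkj, hi, add_zsmul, one_zsmul, mul_comm, mul_zsmul, two_zsmul, hRR, zsmul_zero,
      zero_add]

/-- the smaller number -/
def uu (x y : ℕ) : ℕ := 4 * y * (x + 6 * y)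

/-- the larger number -/
def vv (x y : ℕ) : ℕ := (x + 4 * y) * (x + 8 * y)

lemma uu_lt {x y : ℕ} (hx : 1 ≤ x) : uu x y < vv x y := by
  unfold uu vv
  nlinarith

lemma vu_cop {x y : ℕ} (hx : x % 2 = 1) (h : x.Coprime y) : (vv x y).Coprime (uu x y) := by
  have h2 : ∀ k : ℕ, (x + 2 * k).Coprime 2 := by
    intro k
    rw [Nat.coprime_two_right, Nat.odd_iff]
    omega
  have hy : ∀ k : ℕ, (x + k * y).Coprime y := by
    intro k
    rw [Nat.coprime_add_mul_right_left]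
    exact h
  have e4 : (x + 4 * y).Coprime (2 * y) :=
    Nat.Coprime.mul_right (by have := h2 (2 * y); rwa [← mul_assoc] at this) (hy 4)
  have e8 : (x + 8 * y).Coprime (2 * y) :=
    Nat.Coprime.mul_right (by have := h2 (4 * y); rwa [← mul_assoc] at this) (hy 8)
  have e6 : (x + 6 * y).Coprime (2 * y) :=
    Nat.Coprime.mul_right (by have := h2 (3 * y); rwa [← mul_assoc] at this) (hy 6)
  have f4 : (x + 4 * y).Coprime (x + 6 * y) := by
    have : x + 6 * y = 2 * y + (x + 4 * y) := by ring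
    rw [this, Nat.coprime_add_self_right]
    exact e4
  have f8 : (x + 8 * y).Coprime (x + 6 * y) := by
    have : x + 8 * y = 2 * y + (x + 6 * y) := by ring
    rw [this, Nat.coprime_add_self_left]
    exact e6.symm
  have g : ∀ z : ℕ, z.Coprime (2 * y) → z.Coprime (x + 6 * y) → z.Coprime (uu x y) := by
    intro z h1 h3
    unfold uu
    apply Nat.Coprime.mul_right _ h3
    have h4 : z.Coprime 2 := Nat.Coprime.coprime_mul_right_right h1
    have h5 : z.Coprime y := Nat.Coprime.coprime_mul_left_right h1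
    rw [show 4 * y = 2 * 2 * y by ring]
    exact (h4.mul_right h4).mul_right h5
  exact Nat.Coprime.mul_left (g _ e4 f4) (g _ e8 f8)

lemma uv_inj {x y x' y' : ℕ} (h1 : uu x y = uu x' y') (h2 : vv x y = vv x' y') :
    x = x' ∧ y = y' := by
  unfold uu at h1
  unfold vv at h2
  have e : ((x + 6 * y) ^ 2 + (2 * y) ^ 2) ^ 2 = ((x' + 6 * y') ^ 2 + (2 * y') ^ 2) ^ 2 := by
    have e1 : ∀ x y : ℕ, ((x + 6 * y) ^ 2 + (2 * y) ^ 2) ^ 2 =
        (4 * y * (x + 6 * y)) ^ 2 + ((x + 4 * y) * (x + 8 * y)) ^ 2 := fun x y => by ring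
    rw [e1, e1, h1, h2]
  have e2 := Nat.pow_left_injective (n := 2) (by norm_num) e
  have e3 : (x + 6 * y) ^ 2 = (x' + 6 * y') ^ 2 := by
    have e4 : ∀ x y : ℕ, 2 * (x + 6 * y) ^ 2 = ((x + 6 * y) ^ 2 + (2 * y) ^ 2) +
        ((x + 4 * y) * (x + 8 * y)) := fun x y => by ring
    have e5 := e4 x y
    rw [e2, h2, ← e4 x' y'] at e5
    linarith
  have e6 := Nat.pow_left_injective (n := 2) (by norm_num) e3
  have e7 : (2 * y) ^ 2 = (2 * y') ^ 2 := by
    rw [e3] at e2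
    exact Nat.add_left_cancel e2
  have e8 := Nat.pow_left_injective (n := 2) (by norm_num) e7
  omega

/-- the coefficients of the curve -/
def c8 (x y : ℕ) : ℤ × ℤ := cf (vv x y ^ 2, uu x y ^ 2)

lemma c8_mem {K T H x y : ℕ} (hx : x % 2 = 1) (hy : 1 ≤ y) (hxK : x ≤ K) (hyK : y ≤ K)
    (hc : x.Coprime y) (hKT : 7 * K ≤ T) (hH : 2000000 * T ^ 48 ≤ H) : c8 x y ∈ Cv 8 H := by
  have hx1 : 1 ≤ x := by omega
  have hu1 : 1 ≤ uu x y := by
    unfold uu
    have : 0 < 4 * y * (x + 6 * y) := by positivity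
    exact this
  have hlt := uu_lt (y := y) hx1
  have hvT : vv x y ≤ T ^ 2 := by
    unfold vv
    have h1 : x + 6 * y ≤ T := by omega
    have h2 : (x + 4 * y) * (x + 8 * y) ≤ (x + 6 * y) ^ 2 := by
      have : (x + 6 * y) ^ 2 = (x + 4 * y) * (x + 8 * y) + 4 * y ^ 2 := by ring
      omega
    exact h2.trans (Nat.pow_le_pow_left h1 2)
  have h4 : c8 x y ∈ Cv 4 H := by
    unfold c8
    apply mem_cv (T := T ^ 4)
    · exact Nat.one_le_pow _ _ hu1
    · exact Nat.pow_lt_pow_left hlt two_ne_zero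
    · calc vv x y ^ 2 ≤ (T ^ 2) ^ 2 := Nat.pow_le_pow_left hvT 2
        _ = T ^ 4 := by ring
    · exact Nat.Coprime.pow _ _ (vu_cop hx hc)
    · calc 2000000 * (T ^ 4) ^ 12 = 2000000 * T ^ 48 := by ring
        _ ≤ H := hH
  unfold Cv at h4 ⊢
  simp only [mem_filter] at h4 ⊢
  refine ⟨h4.1, h4.2.1, h4.2.2.1, h4.2.2.2.1, h4.2.2.2.2.1, ?_⟩
  apply hasT8 (X := ((x + 6 * y : ℕ) : ℚ)) (Y := ((2 * y : ℕ) : ℚ))
    (a := ((vv x y ^ 2 : ℕ) : ℚ)) (b := ((uu x y ^ 2 : ℕ) : ℚ))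
  · unfold vv
    push_cast
    ring
  · unfold uu
    push_cast
    ring
  · simp only [c8, cf]
    push_cast
    ring
  · simp only [c8, cf]
    push_cast
    ring
  · have : 0 < 2 * y := by omega
    exact_mod_cast this
  · have : 2 * y < x + 6 * y := by omega
    exact_mod_cast this
  · have h5 : uu x y ^ 2 < vv x y ^ 2 := Nat.pow_lt_pow_left hlt two_ne_zero
    have h6 : ((uu x y ^ 2 : ℕ) : ℚ) < ((vv x y ^ 2 : ℕ) : ℚ) := by exact_mod_cast h5
    intro h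
    linarith

lemma c8_inj {x y x' y' : ℕ} (hx : 1 ≤ x) (hy : 1 ≤ y) (hx' : 1 ≤ x') (hy' : 1 ≤ y')
    (h : c8 x y = c8 x' y') : x = x' ∧ y = y' := by
  have hu1 : ∀ x y : ℕ, 1 ≤ x → 1 ≤ y → 1 ≤ uu x y ^ 2 := by
    intro x y hx hy
    unfold uu
    have : 0 < (4 * y * (x + 6 * y)) ^ 2 := by positivity
    exact this
  have h1 : ∀ x y : ℕ, 1 ≤ x → uu x y ^ 2 < vv x y ^ 2 := fun x y hx =>
    Nat.pow_lt_pow_left (uu_lt hx) two_ne_zero
  unfold c8 at h
  simp only [cf, Prod.mk.injEq] at h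
  obtain ⟨e1, e2⟩ := cf_inj (by exact_mod_cast hu1 x y hx hy) (by exact_mod_cast h1 x y hx)
    (by exact_mod_cast hu1 x' y' hx' hy') (by exact_mod_cast h1 x' y' hx') h.1 h.2
  have e1' : vv x y ^ 2 = vv x' y' ^ 2 := by exact_mod_cast e1
  have e2' : uu x y ^ 2 = uu x' y' ^ 2 := by exact_mod_cast e2
  exact uv_inj (Nat.pow_left_injective (n := 2) (by norm_num) e2')
    (Nat.pow_left_injective (n := 2) (by norm_num) e1')

/-- the pair with first component odd -/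
def od (t : Σ _ : ℕ, ℕ) : ℕ × ℕ := if t.1 % 2 = 1 then (t.1, t.2) else (t.2, t.1)

theorem low' : LOW 8 48 := by
  refine ⟨1 / 4704, 2000000, 35, by norm_num, fun T H hT hH => ?_⟩
  set K := T / 7 with hK
  have hKT : 7 * K ≤ T := Nat.mul_div_le T 7
  have hKT' : T ≤ 14 * K := by
    have h1 : T < 7 * (K + 1) := Nat.lt_mul_div_succ T (by norm_num)
    omega
  have hK5 : 5 ≤ K := by omega
  have hmem : ∀ t ∈ SS K, 1 ≤ t.2 ∧ t.2 < t.1 ∧ t.1 ≤ K ∧ t.1.Coprime t.2 := by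
    intro t ht
    unfold SS at ht
    rw [mem_sigma, mem_Icc, mem_filter, mem_range] at ht
    obtain ⟨⟨k1, k2⟩, k3, k4⟩ := ht
    refine ⟨?_, k3, k2, k4⟩
    rcases Nat.eq_zero_or_pos t.2 with h | h
    · rw [h, Nat.coprime_zero_right] at k4; omega
    · exact h
  have hod : ∀ t ∈ SS K, (od t).1 % 2 = 1 ∧ 1 ≤ (od t).1 ∧ 1 ≤ (od t).2 ∧ (od t).1 ≤ K ∧
      (od t).2 ≤ K ∧ (od t).1.Coprime (od t).2 := by
    intro t ht
    obtain ⟨k1, k2, k3, k4⟩ := hmem t ht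
    unfold od
    by_cases h : t.1 % 2 = 1
    · rw [if_pos h]
      exact ⟨h, by omega, k1, k3, by omega, k4⟩
    · rw [if_neg h]
      have h2 : t.2 % 2 = 1 := by
        by_contra h3
        have h4 : 2 ∣ t.1 := by omega
        have h5 : 2 ∣ t.2 := by omega
        have h6 := Nat.dvd_gcd h4 h5
        rw [Nat.Coprime] at k4
        rw [k4] at h6
        omega
      exact ⟨h2, k1, by omega, by omega, k3, k4.symm⟩
  have h1 : (SS K).card ≤ (Cv 8 H).card := by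
    apply card_le_card_of_injOn (fun t => c8 (od t).1 (od t).2)
    · intro t ht
      obtain ⟨k1, k2, k3, k4, k5, k6⟩ := hod t ht
      exact c8_mem k1 k3 k4 k5 k6 hKT hH
    · intro t ht t' ht' h
      obtain ⟨k1, k2, k3, k4, k5, k6⟩ := hod t ht
      obtain ⟨k1', k2', k3', k4', k5', k6'⟩ := hod t' ht'
      obtain ⟨e1, e2⟩ := c8_inj k2 k3 k2' k3' h
      obtain ⟨g1, g2, g3, g4⟩ := hmem t ht
      obtain ⟨g1', g2', g3', g4'⟩ := hmem t' ht'
      have e : t.1 = t'.1 ∧ t.2 = t'.2 := by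
        unfold od at e1 e2
        by_cases h5 : t.1 % 2 = 1 <;> by_cases h6 : t'.1 % 2 = 1
        · rw [if_pos h5, if_pos h6] at e1 e2
          exact ⟨e1, e2⟩
        · rw [if_pos h5, if_neg h6] at e1 e2
          simp only at e1 e2
          omega
        · rw [if_neg h5, if_pos h6] at e1 e2
          simp only at e1 e2
          omega
        · rw [if_neg h5, if_neg h6] at e1 e2
          exact ⟨e2, e1⟩
      exact Sigma.ext e.1 (heq_of_eq e.2)
  have h2 := card_SS K hK5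
  have h3 : (K : ℝ) ^ 2 ≤ 24 * ((SS K).card : ℝ) := by exact_mod_cast h2
  have h4 : ((SS K).card : ℝ) ≤ ((Cv 8 H).card : ℝ) := by exact_mod_cast h1
  have h5 : (T : ℝ) ≤ 14 * K := by exact_mod_cast hKT'
  have h6 : (T : ℝ) ^ 2 ≤ (14 * K) ^ 2 := pow_le_pow_left₀ (Nat.cast_nonneg T) h5 2
  nlinarith

/-- there are many curves with a subgroup `Z/2 × Z/8` -/
theorem low : Pool.Agent.Y723.Z8.S_LOW := low'

end Pool.Agent.Y73.Z8
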